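import Mathlib
import Pool.Agent.H13.RainbowFac

namespace Pool.Agent.Results.MP_fbee77_co.Seven

open Pool.Agent.H13.RainbowFac

theorem result : Fac 7 := main.2

end Pool.Agent.Results.MP_fbee77_co.Seven
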